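import Mathlib
import Pool.Agent.Helper874.Pent.Comb

set_option autoImplicit false

namespace Pool.Agent.Results.MP_f7203b_co.EquivelarPentagons

/-- Euclidean three-space. -/
abbrev E3 : Type := EuclideanSpace ℝ (Fin 3)

/-- `IsPolygonRegion l R`, for a list `l` of points of a plane: `l` lists the vertices of a simple
closed polygon in cyclic order, and `R` is the closed region bounded by this polygon. Such regions
are built from triangles: a triangle is a polygon region, and if `R` is a polygon region with a
side `a c`, then a triangle `a b c` meeting `R` exactly in that side can be glued to it (by the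
triangulation theorem every simple polygon arises in this way). -/
inductive IsPolygonRegion : List E3 → Set E3 → Prop
  | triangle (a b c : E3) (h : ¬ Collinear ℝ {a, b, c}) :
      IsPolygonRegion [a, b, c] (convexHull ℝ {a, b, c})
  | glue (a b c : E3) (l : List E3) (R : Set E3) (hR : IsPolygonRegion (a :: c :: l) R)
      (h : ¬ Collinear ℝ {a, b, c}) (hm : convexHull ℝ {a, b, c} ∩ R = segment ℝ a c) :
      IsPolygonRegion (a :: b :: c :: l) (convexHull ℝ {a, b, c} ∪ R)
  | rotate (l : List E3) (R : Set E3) (hR : IsPolygonRegion l R) :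
      IsPolygonRegion (l.rotate 1) R

/-- In the cyclic list `l` the entry `a` is directly followed by `b`. -/
def Follows {n : ℕ} (l : List (Fin n)) (a b : Fin n) : Prop := (a, b) ∈ l.zip (l.rotate 1)

/-- The segment with end points `a`, `b` is a side of the polygon with cyclic vertex list `l`. -/
def IsSide {n : ℕ} (l : List (Fin n)) (a b : Fin n) : Prop := Follows l a b ∨ Follows l b a

/-- The edges of the surface, as unordered pairs of vertices. -/
def edges {n m : ℕ} (face : Fin m → List (Fin n)) : Set (Sym2 (Fin n)) :=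
  {e | ∃ f a b, IsSide (face f) a b ∧ e = s(a, b)}

/-- The points `P v` (`v : Fin n`) are the vertices, the cyclic lists `face f` (`f : Fin m`) are the
boundaries of the faces and the sets `R f` are the faces of an equivelar polyhedron of type
`{p, q; g}` in Euclidean 3-space: a closed connected orientable surface of genus `g`, composed of
planar (not necessarily convex) `p`-gons, without self-intersections, with `q` edges at every
vertex. -/
structure IsEquivelarPolyhedron (p q g : ℕ) {n m : ℕ} (P : Fin n → E3)
    (face : Fin m → List (Fin n)) (R : Fin m → Set E3) : Prop where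
  /-- different labels are different points -/
  inj : Function.Injective P
  /-- the vertices of a face are distinct -/
  nodup : ∀ f, (face f).Nodup
  /-- every face is a `p`-gon -/
  gon : ∀ f, (face f).length = p
  /-- the vertices of a face lie in a plane -/
  planar : ∀ f, Coplanar ℝ (P '' {v | v ∈ face f})
  /-- the face is the region bounded by the simple polygon with the given vertices -/
  region : ∀ f, IsPolygonRegion ((face f).map P) (R f)
  /-- two edges of a face sharing a vertex are not collinear -/
  corner : ∀ f a b c, Follows (face f) a b → Follows (face f) b c →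
    ¬ Collinear ℝ {P a, P b, P c}
  /-- no self-intersections: any common point of two different faces is a common vertex or lies on
  a common side of the two faces -/
  meet : ∀ f f', f ≠ f' → ∀ x ∈ R f ∩ R f',
    (∃ v, v ∈ face f ∧ v ∈ face f' ∧ x = P v) ∨
    (∃ a b, IsSide (face f) a b ∧ IsSide (face f') a b ∧ x ∈ segment ℝ (P a) (P b))
  /-- two faces sharing an edge are not coplanar -/
  fold : ∀ f f' a b, f ≠ f' → IsSide (face f) a b → IsSide (face f') a b →
    ¬ Coplanar ℝ (P '' {v | v ∈ face f ∨ v ∈ face f'})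
  /-- the faces at each vertex `v` form one closed cycle of length `q`, and the cyclic orders of
  the faces orient the surface coherently: the faces at `v` are `F i` (`i` modulo `q`), where
  `F i` passes from the neighbour `w i` of `v` through `v` to the neighbour `w (i + 1)`; so exactly
  `q` edges meet at `v`, every edge is in exactly two faces and the surface is a closed
  orientable 2-manifold -/
  link : ∀ v, ∃ (w : ZMod q → Fin n) (F : ZMod q → Fin m), Function.Injective w ∧
    Function.Injective F ∧
    (∀ i, Follows (face (F i)) (w i) v ∧ Follows (face (F i)) v (w (i + 1))) ∧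
    ∀ f, v ∈ face f → ∃ i, F i = f
  /-- the surface is connected -/
  connected : ∀ u v, Relation.ReflTransGen (fun a b => ∃ f, IsSide (face f) a b) u v
  /-- Euler's relation, which defines the genus `g` -/
  euler : (n : ℤ) - ((edges face).ncard : ℤ) + (m : ℤ) = 2 - 2 * (g : ℤ)

open Pool.Agent.Helper874.Pent

theorem follows_iff {l : List (Fin 48)} {a b : Fin 48} :
    Follows l a b ↔ (a, b) ∈ l.zip (l.rotate 1) := Iff.rfl

theorem mem_rotate_zip {l : List (Fin 48)} {a b c d e : Fin 48} (hl : l = [a, b, c, d, e])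
    {x y : Fin 48} : Follows l x y ↔ (x = a ∧ y = b) ∨ (x = b ∧ y = c) ∨ (x = c ∧ y = d) ∨
      (x = d ∧ y = e) ∨ (x = e ∧ y = a) := by
  subst hl
  simp [Follows]

theorem follows_eq {j j' : Fin 48} {a b : Fin 48} (h : Follows (face j) a b)
    (h' : Follows (face j') a b) : j = j' := by
  rcases coherent j j' with e | e
  · exact e
  · exfalso
    have := List.all_eq_true.1 e (a, b) h
    simp only [Bool.not_eq_true', List.contains_eq_mem, decide_eq_false_iff_not] at this
    exact this h'

theorem edges_eq : edges face = ((edgeFin : Finset (Sym2 (Fin 48))) : Set (Sym2 (Fin 48))) := by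
  ext e
  simp only [edges, Set.mem_ofPred_eq, Finset.coe_biUnion, Set.mem_iUnion, edgeFin, Finset.mem_coe,
    List.mem_toFinset, List.mem_map]
  constructor
  · rintro ⟨f, a, b, h | h, rfl⟩
    · exact ⟨f, Finset.mem_univ _, (a, b), h, rfl⟩
    · exact ⟨f, Finset.mem_univ _, (b, a), h, Sym2.eq_swap⟩
  · rintro ⟨f, -, ⟨a, b⟩, h, rfl⟩
    exact ⟨f, a, b, Or.inl h, rfl⟩

/-- A common side of two different faces is traversed in opposite directions. -/
theorem side_opposite {j j' : Fin 48} (hne : j ≠ j') {a b : Fin 48} (h : IsSide (face j) a b)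
    (h' : IsSide (face j') a b) :
    (Follows (face j) a b ∧ Follows (face j') b a) ∨ (Follows (face j) b a ∧ Follows (face j') a b) := by
  rcases h with h | h <;> rcases h' with h' | h'
  · exact absurd (follows_eq h h') hne
  · exact Or.inl ⟨h, h'⟩
  · exact Or.inr ⟨h, h'⟩
  · exact absurd (follows_eq h h') hne

theorem fold_aux {w : Fin 24 → ℝ} (hw : Close w) {j j' : Fin 48} (hne : j ≠ j') {a b : Fin 48}
    (h : Follows (face j) a b) (h' : Follows (face j') b a) :
    ¬ Coplanar ℝ (pos w '' {v | v ∈ face j ∨ v ∈ face j'}) := by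
  rcases fold_ok j j' with e | e
  · exact absurd e hne
  · unfold foldOK at e
    have hmem : (a, b) ∈ common (fc j) (fc j') := by
      unfold common
      rw [List.mem_filter]
      refine ⟨h, ?_⟩
      simp only [List.contains_eq_mem, decide_eq_true_iff]
      exact h'
    have e1 := List.all_eq_true.1 e (a, b) hmem
    rw [List.any_eq_true] at e1
    obtain ⟨p, hp, e1⟩ := e1
    rw [List.any_eq_true] at e1
    obtain ⟨q, hq, e1⟩ := e1
    rw [List.any_eq_true] at e1
    obtain ⟨r, hr, e1⟩ := e1
    rw [List.any_eq_true] at e1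
    obtain ⟨s, hs, e1⟩ := e1
    simp only [Bool.and_eq_true] at e1
    have hd := detOK_sound (P := pos w) e1.2 (near_fc hw j p hp) (near_fc hw j q hq)
      (near_fc hw j r hr) (near_fc hw j' s hs)
    refine not_coplanar_of_det (p := pos w p.1) (q := pos w q.1) (r := pos w r.1)
      (s := pos w s.1) ?_ ?_ ?_ ?_ hd
    · exact ⟨p.1, Or.inl (List.mem_map.2 ⟨p, hp, rfl⟩), rfl⟩
    · exact ⟨q.1, Or.inl (List.mem_map.2 ⟨q, hq, rfl⟩), rfl⟩
    · exact ⟨r.1, Or.inl (List.mem_map.2 ⟨r, hr, rfl⟩), rfl⟩
    · exact ⟨s.1, Or.inr (List.mem_map.2 ⟨s, hs, rfl⟩), rfl⟩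

/-- **Main result.** There is an equivelar polyhedron of type `{5, 5; 13}` in Euclidean 3-space
(with 48 vertices and 48 pentagonal faces). -/
theorem result : ∃ (P : Fin 48 → E3) (face : Fin 48 → List (Fin 48)) (R : Fin 48 → Set E3),
    IsEquivelarPolyhedron 5 5 13 P face R := by
  obtain ⟨w, hclose, hw⟩ := exists_w
  have hface : ∀ j : Fin 48, ∃ a b c d e : Fin 48, face j = [a, b, c, d, e] ∧
      ¬ Collinear ℝ {pos w a, pos w b, pos w c} ∧ ¬ Collinear ℝ {pos w a, pos w c, pos w d} ∧
      ¬ Collinear ℝ {pos w a, pos w d, pos w e} ∧ ¬ Collinear ℝ {pos w e, pos w a, pos w b} ∧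
      ¬ Collinear ℝ {pos w b, pos w c, pos w d} ∧ ¬ Collinear ℝ {pos w c, pos w d, pos w e} ∧
      ¬ Collinear ℝ {pos w d, pos w e, pos w a} ∧
      convexHull ℝ {pos w a, pos w c, pos w d} ∩ convexHull ℝ {pos w a, pos w d, pos w e} =
        segment ℝ (pos w a) (pos w d) ∧
      convexHull ℝ {pos w a, pos w b, pos w c} ∩ (convexHull ℝ {pos w a, pos w c, pos w d} ∪
        convexHull ℝ {pos w a, pos w d, pos w e}) = segment ℝ (pos w a) (pos w c) :=
    fun j => face_sound (faces_ok j) (near_fc hclose j)
  refine ⟨pos w, face, fun j => reg (pos w) (face j), ?_, ?_, ?_, ?_, ?_, ?_, ?_, ?_, ?_, ?_, ?_⟩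
  · exact pos_inj hclose
  · exact face_nodup
  · exact face_length
  · exact planar hw
  · intro j
    obtain ⟨a, b, c, d, e, hj, n1, n2, n3, -, -, -, -, i1, i2⟩ := hface j
    rw [hj]
    simp only [List.map_cons, List.map_nil, reg]
    have s1 := IsPolygonRegion.triangle _ _ _ n3
    have s2 := IsPolygonRegion.glue _ _ _ _ _ s1 n2 i1
    exact IsPolygonRegion.glue _ _ _ _ _ s2 n1 i2
  · intro j x y z hxy hyz
    obtain ⟨a, b, c, d, e, hj, n1, n2, n3, n4, n5, n6, n7, -, -⟩ := hface j
    have hnd := face_nodup j
    rw [hj] at hnd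
    rw [mem_rotate_zip hj] at hxy hyz
    simp only [List.nodup_cons, List.mem_cons, List.not_mem_nil, or_false, not_or,
      List.nodup_nil, and_true, not_false_eq_true] at hnd
    obtain ⟨⟨d1, d2, d3, d4⟩, ⟨d5, d6, d7⟩, ⟨d8, d9⟩, d10⟩ := hnd
    rcases hxy with ⟨rfl, rfl⟩ | ⟨rfl, rfl⟩ | ⟨rfl, rfl⟩ | ⟨rfl, rfl⟩ | ⟨rfl, rfl⟩ <;>
      rcases hyz with ⟨h1, rfl⟩ | ⟨h1, rfl⟩ | ⟨h1, rfl⟩ | ⟨h1, rfl⟩ | ⟨h1, rfl⟩ <;>
      first
        | assumption
        | exact absurd h1 (by first | assumption | exact Ne.symm (by assumption))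
  · intro j j' hne x hx
    rcases lt_or_gt_of_ne hne with h | h
    · obtain ⟨c, hc⟩ := pair_ok h
      rcases pair_sound hc (near_fc hclose j) (near_fc hclose j') hx.1 hx.2 with
        ⟨v, h1, h2, h3⟩ | ⟨s, t, h1, h2, h3⟩
      · exact Or.inl ⟨v, h1, h2, h3⟩
      · exact Or.inr ⟨s, t, Or.inl h1, Or.inr h2, h3⟩
    · obtain ⟨c, hc⟩ := pair_ok h
      rcases pair_sound hc (near_fc hclose j') (near_fc hclose j) hx.2 hx.1 with
        ⟨v, h1, h2, h3⟩ | ⟨s, t, h1, h2, h3⟩
      · exact Or.inl ⟨v, h2, h1, h3⟩
      · exact Or.inr ⟨s, t, Or.inr h2, Or.inl h1, h3⟩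
  · intro j j' a b hne h h'
    rcases side_opposite hne h h' with ⟨g, g'⟩ | ⟨g, g'⟩
    · exact fold_aux hclose hne g g'
    · exact fold_aux hclose hne g g'
  · intro v
    refine ⟨fun i : Fin 5 => (lw.getD v.val []).getD i.val 0,
      fun i : Fin 5 => (lf.getD v.val []).getD i.val 0, ?_, ?_, ?_, ?_⟩
    · intro i j h
      exact lw_inj v i j h
    · intro i j h
      exact lf_inj v i j h
    · intro i
      exact link_ok v i
    · intro f hf
      exact lf_all v f hf
  · intro u v
    have h := conn u v
    induction h with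
    | refl => exact Relation.ReflTransGen.refl
    | tail _ hbc ih =>
      obtain ⟨f, hf⟩ := hbc
      exact Relation.ReflTransGen.tail ih ⟨f, Or.inl hf⟩
  · rw [edges_eq, Set.ncard_coe_finset, edge_card]
    norm_num

end Pool.Agent.Results.MP_f7203b_co.EquivelarPentagons
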